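import Mathlib

set_option autoImplicit false

open Finset

namespace Pool.Agent.Results.MP_773b84_nt.BeyondTwoThirds

/-- no element of `A` is a multiple of two other elements of `A` -/
def Admissible (A : Finset ℕ) : Prop :=
  ¬ ∃ a ∈ A, ∃ b ∈ A, ∃ c ∈ A, a ≠ b ∧ a ≠ c ∧ b ≠ c ∧ b ∣ a ∧ c ∣ a

open Classical in
/-- `g n` is the largest cardinality of an admissible subset of `[1, n]` -/
noncomputable def g (n : ℕ) : ℕ :=
  ((Icc 1 n).powerset.filter (fun A => Admissible A)).sup Finset.card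

lemma le_g {n : ℕ} {A : Finset ℕ} (h : A ⊆ Icc 1 n) (hA : Admissible A) : A.card ≤ g n := by
  classical
  unfold g
  exact Finset.le_sup (f := Finset.card) (by simp [h, hA])

lemma g_le {n N : ℕ} (h : ∀ A ⊆ Icc 1 n, Admissible A → A.card ≤ N) : g n ≤ N := by
  classical
  unfold g
  refine Finset.sup_le fun A hA => ?_
  simp only [mem_filter, mem_powerset] at hA
  exact h A hA.1 hA.2

lemma g_mono {m n : ℕ} (h : m ≤ n) : g m ≤ g n :=
  g_le fun A hA hA' => le_g (hA.trans (Icc_subset_Icc_right h)) hA'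

/-- the odd integers of `(2 a, 2 a + 2 b]` -/
def O (a b : ℕ) : Finset ℕ := (Ioc (2 * a) (2 * a + 2 * b)).filter (fun t => t % 2 = 1)

lemma card_O (a b : ℕ) : (O a b).card = b := by
  have : O a b = (range b).image (fun i => 2 * a + 1 + 2 * i) := by
    ext t
    simp only [O, mem_filter, mem_Ioc, mem_image, mem_range]
    constructor
    · rintro ⟨⟨h1, h2⟩, h3⟩
      exact ⟨(t - (2 * a + 1)) / 2, by omega, by omega⟩
    · rintro ⟨i, hi, rfl⟩
      omega
  rw [this, card_image_of_injective _ (fun a b h => by simpa using h), card_range]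

/-- the multiples `c k` with `k` odd in `(8 m, 10 m]` -/
def I (c m : ℕ) : Finset ℕ := (O (4 * m) m).image (fun k => c * k)

lemma mem_I {c m x : ℕ} : x ∈ I c m ↔ ∃ k, 8 * m < k ∧ k ≤ 10 * m ∧ k % 2 = 1 ∧ x = c * k := by
  simp only [I, O, mem_image, mem_filter, mem_Ioc]
  constructor
  · rintro ⟨k, ⟨⟨h1, h2⟩, h3⟩, rfl⟩
    exact ⟨k, by omega, by omega, h3, rfl⟩
  · rintro ⟨k, h1, h2, h3, rfl⟩
    exact ⟨k, ⟨⟨by omega, by omega⟩, h3⟩, rfl⟩

lemma card_I {c : ℕ} (hc : 0 < c) (m : ℕ) : (I c m).card = m := by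
  rw [I, card_image_of_injective _ (fun a b h => Nat.eq_of_mul_eq_mul_left hc h), card_O]

/-- the construction: all integers of `(40 m, 120 m]` except `12 k`, the odd integers of
`(30 m, 40 m]`, and the integers `4 k`, `3 k`, where `k` runs over the odd integers of
`(8 m, 10 m]` -/
def S (m : ℕ) : Finset ℕ :=
  (Ioc (40 * m) (120 * m) \ I 12 m) ∪ (O (15 * m) (5 * m) ∪ (I 4 m ∪ I 3 m))

lemma mem_S {m x : ℕ} : x ∈ S m ↔ (40 * m < x ∧ x ≤ 120 * m ∧ x ∉ I 12 m) ∨
    (30 * m < x ∧ x ≤ 40 * m ∧ x % 2 = 1) ∨ x ∈ I 4 m ∨ x ∈ I 3 m := by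
  have : x ∈ O (15 * m) (5 * m) ↔ (30 * m < x ∧ x ≤ 40 * m ∧ x % 2 = 1) := by
    simp only [O, mem_filter, mem_Ioc]
    omega
  simp only [S, mem_union, mem_sdiff, mem_Ioc, this]
  tauto

lemma card_S (m : ℕ) : 86 * m ≤ (S m).card := by
  have h1 : Disjoint (I 4 m) (I 3 m) := by
    rw [Finset.disjoint_left]
    intro x hx hx'
    rw [mem_I] at hx hx'
    omega
  have h2 : Disjoint (O (15 * m) (5 * m)) (I 4 m ∪ I 3 m) := by
    rw [Finset.disjoint_left]
    intro x hx hx'
    rw [mem_union, mem_I, mem_I] at hx'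
    simp only [O, mem_filter, mem_Ioc] at hx
    omega
  have h3 : Disjoint (Ioc (40 * m) (120 * m) \ I 12 m) (O (15 * m) (5 * m) ∪ (I 4 m ∪ I 3 m)) := by
    rw [Finset.disjoint_left]
    intro x hx hx'
    rw [mem_union, mem_union, mem_I, mem_I] at hx'
    simp only [mem_sdiff, mem_Ioc] at hx
    rcases hx' with hx' | hx'
    · simp only [O, mem_filter, mem_Ioc] at hx'
      omega
    · omega
  rw [S, card_union_of_disjoint h3, card_union_of_disjoint h2, card_union_of_disjoint h1,
    card_O, card_I (by norm_num), card_I (by norm_num)]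
  have h4 := Finset.le_card_sdiff (I 12 m) (Ioc (40 * m) (120 * m))
  rw [Nat.card_Ioc, card_I (by norm_num)] at h4
  omega

lemma S_sub (m : ℕ) : S m ⊆ Icc 1 (120 * m) := by
  intro x hx
  rw [mem_S, mem_I (c := 4), mem_I (c := 3)] at hx
  rw [mem_Icc]
  rcases hx with ⟨h1, h2, -⟩ | h | ⟨k, h1, h2, h3, h4⟩ | ⟨k, h1, h2, h3, h4⟩ <;> omega

/-- the divisibility relations inside the construction -/
lemma key {m x y : ℕ} (hx : x ∈ S m) (hy : y ∈ S m) (hne : x ≠ y) (hd : y ∣ x) :
    x = 2 * y ∨ (x = 3 * y ∧ y % 2 = 1) := by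
  obtain ⟨u, rfl⟩ := hd
  have hR : ∀ k, 8 * m < k → k ≤ 10 * m → k % 2 = 1 → y * u ≠ 12 * k := by
    intro k h1 h2 h3 h4
    have h5 : y * u ∈ I 12 m := mem_I.mpr ⟨k, h1, h2, h3, h4⟩
    rw [mem_S, mem_I (c := 4), mem_I (c := 3)] at hx
    rcases hx with hx | h | ⟨k, h1, h2, h3, h4⟩ | ⟨k, h1, h2, h3, h4⟩
    · exact hx.2.2 h5
    · omega
    · omega
    · omega
  have hy0 : 24 * m < y := by
    rw [mem_S, mem_I (c := 4), mem_I (c := 3)] at hy
    rcases hy with ⟨h1, h2, -⟩ | h | ⟨k, h1, h2, h3, h4⟩ | ⟨k, h1, h2, h3, h4⟩ <;> omega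
  have hx0 : y * u ≤ 120 * m := (mem_Icc.mp (S_sub m hx)).2
  have hx1 : 1 ≤ y * u := (mem_Icc.mp (S_sub m hx)).1
  have hu : u < 5 := by
    by_contra hcon
    push Not at hcon
    have : y * 5 ≤ y * u := Nat.mul_le_mul_left y hcon
    omega
  have hy' : 40 * m < y ∨ (30 * m < y ∧ y ≤ 40 * m ∧ y % 2 = 1) ∨
      (∃ k, 8 * m < k ∧ k ≤ 10 * m ∧ k % 2 = 1 ∧ y = 4 * k) ∨
      (∃ k, 8 * m < k ∧ k ≤ 10 * m ∧ k % 2 = 1 ∧ y = 3 * k) := by
    rw [mem_S, mem_I (c := 4), mem_I (c := 3)] at hy
    rcases hy with h | h | h | h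
    · exact Or.inl h.1
    · exact Or.inr (Or.inl h)
    · exact Or.inr (Or.inr (Or.inl h))
    · exact Or.inr (Or.inr (Or.inr h))
  rcases hy' with h | h | ⟨k, h1, h2, h3, h4⟩ | ⟨k, h1, h2, h3, h4⟩
  · interval_cases u <;> omega
  · interval_cases u <;> omega
  · have := hR k h1 h2 h3
    interval_cases u <;> omega
  · have := hR k h1 h2 h3
    interval_cases u <;> omega

lemma S_adm (m : ℕ) : Admissible (S m) := by
  rintro ⟨a, ha, b, hb, c, hc, hab, hac, hbc, h1, h2⟩
  have h3 := key ha hb hab h1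
  have h4 := key ha hc hac h2
  omega

lemma lower (n : ℕ) : 43 * n ≤ 60 * g n + 43 * 120 := by
  have h1 : 86 * (n / 120) ≤ g n :=
    (card_S _).trans ((le_g (S_sub _) (S_adm _)).trans (g_mono (by omega)))
  omega

/-! ### the upper bound -/

lemma card_odd (N : ℕ) : ((Icc 1 N).filter (fun k => k % 2 = 1)).card = (N + 1) / 2 := by
  have : (Icc 1 N).filter (fun k => k % 2 = 1) = (range ((N + 1) / 2)).image (fun i => 2 * i + 1) := by
    ext t
    simp only [mem_filter, mem_Icc, mem_image, mem_range]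
    constructor
    · rintro ⟨⟨h1, h2⟩, h3⟩
      exact ⟨t / 2, by omega, by omega⟩
    · rintro ⟨i, hi, rfl⟩
      omega
  rw [this, card_image_of_injective _ (fun a b h => by simpa using h), card_range]

/-- the odd part -/
noncomputable def o (a : ℕ) : ℕ := if h : a ≠ 0 then (Nat.exists_eq_two_pow_mul_odd h).choose_spec.choose else 1

lemma o_spec {a : ℕ} (h : a ≠ 0) : ∃ e, o a % 2 = 1 ∧ a = 2 ^ e * o a := by
  have h2 : o a = (Nat.exists_eq_two_pow_mul_odd h).choose_spec.choose := dif_pos h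
  have h3 := (Nat.exists_eq_two_pow_mul_odd h).choose_spec.choose_spec
  rw [← h2] at h3
  exact ⟨_, Nat.odd_iff.mp h3.1, h3.2⟩

/-- the representative of the block of `a` -/
noncomputable def r (a : ℕ) : ℕ := if o a % 3 = 0 ∧ o a % 9 ≠ 0 then o a / 3 else o a

lemma o_le {a : ℕ} (h : a ≠ 0) : o a ≤ a := by
  obtain ⟨e, h1, h2⟩ := o_spec h
  calc o a = 1 * o a := (one_mul _).symm
    _ ≤ 2 ^ e * o a := Nat.mul_le_mul_right _ Nat.one_le_two_pow
    _ = a := h2.symm

/-- a chain with the same odd part contains at most two elements -/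
lemma chain {n : ℕ} {A : Finset ℕ} (hA : A ⊆ Icc 1 n) (hadm : Admissible A) (k : ℕ) :
    (A.filter (fun a => o a = k)).card ≤ (if k ≤ n then 1 else 0) + (if 2 * k ≤ n then 1 else 0) := by
  classical
  have hpos : ∀ a ∈ A, 1 ≤ a ∧ a ≤ n := fun a ha => mem_Icc.mp (hA ha)
  have hdvd : ∀ a ∈ A, ∀ b ∈ A, o a = o b → b < a → b ∣ a ∧ 2 * o a ≤ a := by
    intro a ha b hb hab hlt
    have ha0 := hpos a ha
    have hb0 := hpos b hb
    obtain ⟨e, h1, h2⟩ := o_spec (a := a) (by omega)
    obtain ⟨f, h3, h4⟩ := o_spec (a := b) (by omega)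
    have hef : f < e := by
      by_contra hcon
      push Not at hcon
      have : 2 ^ e * o a ≤ 2 ^ f * o b := by
        rw [← hab]
        exact Nat.mul_le_mul_right _ (Nat.pow_le_pow_right (by norm_num) hcon)
      omega
    constructor
    · rw [h2, h4, ← hab]
      exact Nat.mul_dvd_mul_right (pow_dvd_pow _ hef.le) _
    · obtain ⟨e', rfl⟩ := Nat.exists_eq_succ_of_ne_zero (show e ≠ 0 by omega)
      calc 2 * o a = 2 * (1 * o a) := by ring
          _ ≤ 2 * (2 ^ e' * o a) := by
              exact Nat.mul_le_mul_left _ (Nat.mul_le_mul_right _ Nat.one_le_two_pow)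
          _ = 2 ^ (e' + 1) * o a := by ring
          _ = a := h2.symm
  set F := A.filter (fun a => o a = k) with hF
  have hFm : ∀ a ∈ F, a ∈ A ∧ o a = k := fun a ha => by rwa [hF, mem_filter] at ha
  have h2 : F.card ≤ 2 := by
    by_contra hcon
    push Not at hcon
    obtain ⟨x, y, z, hx, hy, hz, hxy, hxz, hyz⟩ := Finset.two_lt_card_iff.mp hcon
    -- order them
    have main : ∀ x ∈ F, ∀ y ∈ F, ∀ z ∈ F, x < y → y < z → False := by
      intro x hx y hy z hz h1 h2
      have hx' := hFm x hx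
      have hy' := hFm y hy
      have hz' := hFm z hz
      exact hadm ⟨z, hz'.1, y, hy'.1, x, hx'.1, by omega, by omega, by omega,
        (hdvd z hz'.1 y hy'.1 (by omega) h2).1, (hdvd z hz'.1 x hx'.1 (by omega) (by omega)).1⟩
    rcases lt_or_gt_of_ne hxy with h1 | h1 <;> rcases lt_or_gt_of_ne hxz with h2 | h2 <;>
      rcases lt_or_gt_of_ne hyz with h3 | h3
    · exact main x hx y hy z hz h1 h3
    · exact main x hx z hz y hy h2 h3
    · omega
    · exact main z hz x hx y hy h2 h1
    · exact main y hy x hx z hz h1 h2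
    · omega
    · exact main y hy z hz x hx h3 h2
    · exact main z hz y hy x hx h3 h1
  rcases Nat.eq_zero_or_pos F.card with h0 | h0
  · omega
  · obtain ⟨a, ha⟩ := Finset.card_pos.mp h0
    have ha' := hFm a ha
    have ha'' := hpos a ha'.1
    have hk : k ≤ n := by
      have := o_le (a := a) (by omega)
      omega
    rw [if_pos hk]
    by_cases hk2 : 2 * k ≤ n
    · rw [if_pos hk2]; omega
    · rw [if_neg hk2]
      by_contra hcon
      push Not at hcon
      obtain ⟨x, y, hx, hy, hxy⟩ := Finset.one_lt_card_iff.mp (show 1 < F.card by omega)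
      have hx' := hFm x hx
      have hy' := hFm y hy
      have hx'' := hpos x hx'.1
      have hy'' := hpos y hy'.1
      rcases lt_or_gt_of_ne hxy with h1 | h1
      · have := (hdvd y hy'.1 x hx'.1 (by omega) h1).2
        omega
      · have := (hdvd x hx'.1 y hy'.1 (by omega) h1).2
        omega

lemma small {a k : ℕ} (ha : a ≠ 0) (ho : o a = k) (h : a < 8 * k) :
    a = k ∨ a = 2 * k ∨ a = 4 * k := by
  obtain ⟨e, h1, h2⟩ := o_spec ha
  rw [ho] at h2 h1
  have he : e < 3 := by
    by_contra hcon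
    push Not at hcon
    have : 2 ^ 3 * k ≤ 2 ^ e * k := Nat.mul_le_mul_right _ (Nat.pow_le_pow_right (by norm_num) hcon)
    omega
  interval_cases e <;> omega

lemma strip {n : ℕ} {A : Finset ℕ} (hA : A ⊆ Icc 1 n) (hadm : Admissible A) {s : ℕ}
    (hs : s % 3 ≠ 0) :
    (A.filter (fun a => r a = s)).card ≤ (if s ≤ n then 1 else 0) + (if 2 * s ≤ n then 1 else 0) +
      (if 3 * s ≤ n then 1 else 0) + (if 8 * s ≤ n then 1 else 0) := by
  classical
  have hpos : ∀ a ∈ A, 1 ≤ a ∧ a ≤ n := fun a ha => mem_Icc.mp (hA ha)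
  have hsub : A.filter (fun a => r a = s) ⊆
      A.filter (fun a => o a = s) ∪ A.filter (fun a => o a = 3 * s) := by
    intro a ha
    rw [mem_filter] at ha
    rw [mem_union, mem_filter, mem_filter]
    obtain ⟨ha, hr⟩ := ha
    unfold r at hr
    split_ifs at hr with h
    · right; exact ⟨ha, by omega⟩
    · left; exact ⟨ha, hr⟩
  have h0 := (card_le_card hsub).trans (card_union_le _ _)
  have h1 := chain hA hadm s
  have h2 := chain hA hadm (3 * s)
  by_cases h6 : 2 * (3 * s) ≤ n
  swap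
  · rw [if_neg h6] at h2
    omega
  have hs1 : s ≤ n := by omega
  have hs2 : 2 * s ≤ n := by omega
  have hs3 : 3 * s ≤ n := by omega
  rw [if_pos hs1, if_pos hs2] at h1
  rw [if_pos hs3, if_pos h6] at h2
  rw [if_pos hs1, if_pos hs2, if_pos hs3]
  by_cases h8 : 8 * s ≤ n
  · rw [if_pos h8]; omega
  rw [if_neg h8]
  by_contra hcon
  push Not at hcon
  have hF1 : 1 < (A.filter (fun a => o a = s)).card := by omega
  have hF2 : 1 < (A.filter (fun a => o a = 3 * s)).card := by omega
  obtain ⟨x, y, hx, hy, hxy⟩ := Finset.one_lt_card_iff.mp hF2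
  rw [mem_filter] at hx hy
  have hx0 := hpos x hx.1
  have hy0 := hpos y hy.1
  have hx1 := small (a := x) (by omega) hx.2 (by omega)
  have hy1 := small (a := y) (by omega) hy.2 (by omega)
  have h3 : 3 * s ∈ A := by
    rcases (show x = 3 * s ∨ y = 3 * s by omega) with h | h
    · rw [← h]; exact hx.1
    · rw [← h]; exact hy.1
  have h6' : 6 * s ∈ A := by
    rcases (show x = 6 * s ∨ y = 6 * s by omega) with h | h
    · rw [← h]; exact hx.1
    · rw [← h]; exact hy.1
  obtain ⟨z, w, hz, hw, hzw⟩ := Finset.one_lt_card_iff.mp hF1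
  rw [mem_filter] at hz hw
  have hz0 := hpos z hz.1
  have hw0 := hpos w hw.1
  have hz1 := small (a := z) (by omega) hz.2 (by omega)
  have hw1 := small (a := w) (by omega) hw.2 (by omega)
  have h7 : ∃ v ∈ A, v = s ∨ v = 2 * s := by
    rcases (show (z = s ∨ z = 2 * s) ∨ (w = s ∨ w = 2 * s) by omega) with h | h
    · exact ⟨z, hz.1, h⟩
    · exact ⟨w, hw.1, h⟩
  obtain ⟨v, hv, hv'⟩ := h7
  have hv0 := hpos v hv
  refine hadm ⟨6 * s, h6', 3 * s, h3, v, hv, by omega, by omega, by omega, ⟨2, by ring⟩, ?_⟩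
  rcases hv' with rfl | rfl
  · exact ⟨6, by ring⟩
  · exact ⟨3, by ring⟩

/-- the integers up to `N` which are coprime to `6` -/
def C (N : ℕ) : Finset ℕ := (Icc 1 N).filter (fun s => s % 2 = 1 ∧ s % 3 ≠ 0)

/-- the odd multiples of `9` up to `N` -/
def D (N : ℕ) : Finset ℕ := (Icc 1 N).filter (fun s => s % 2 = 1 ∧ s % 9 = 0)

lemma card_C (N : ℕ) : (C N).card = (N + 5) / 6 + (N + 1) / 6 := by
  induction N with
  | zero => simp [C]
  | succ N ih =>
    rw [C, ← Finset.insert_Icc_right_eq_Icc_add_one (by omega), Finset.filter_insert]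
    rw [C] at ih
    split_ifs with h
    · rw [card_insert_of_notMem (by simp), ih]
      obtain ⟨q, t, ht, rfl⟩ : ∃ q t, t < 6 ∧ N = 6 * q + t := ⟨N / 6, N % 6, by omega, by omega⟩
      interval_cases t <;> omega
    · rw [ih]
      obtain ⟨q, t, ht, rfl⟩ : ∃ q t, t < 6 ∧ N = 6 * q + t := ⟨N / 6, N % 6, by omega, by omega⟩
      interval_cases t <;> omega

lemma card_C_le (N : ℕ) : 3 * (C N).card ≤ N + 2 := by
  rw [card_C]
  obtain ⟨q, t, ht, rfl⟩ : ∃ q t, t < 6 ∧ N = 6 * q + t := ⟨N / 6, N % 6, by omega, by omega⟩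
  interval_cases t <;> omega

lemma card_D (N : ℕ) : (D N).card = (N + 9) / 18 := by
  induction N with
  | zero => simp [D]
  | succ N ih =>
    rw [D, ← Finset.insert_Icc_right_eq_Icc_add_one (by omega), Finset.filter_insert]
    rw [D] at ih
    split_ifs with h
    · rw [card_insert_of_notMem (by simp), ih]
      omega
    · rw [ih]
      omega

lemma upper (n : ℕ) : 72 * g n ≤ 53 * n + 264 := by
  classical
  suffices h : g n ≤ ((C n).card + (C (n / 2)).card + (C (n / 3)).card + (C (n / 8)).card) +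
      ((D n).card + (D (n / 2)).card) by
    have h1 := card_C_le n
    have h2 := card_C_le (n / 2)
    have h3 := card_C_le (n / 3)
    have h4 := card_C_le (n / 8)
    have h5 : 18 * (D n).card ≤ n + 9 := by rw [card_D]; omega
    have h6 : 18 * (D (n / 2)).card ≤ n / 2 + 9 := by rw [card_D]; omega
    have h7 : 2 * (n / 2) ≤ n := Nat.mul_div_le n 2
    have h8 : 3 * (n / 3) ≤ n := Nat.mul_div_le n 3
    have h9 : 8 * (n / 8) ≤ n := Nat.mul_div_le n 8
    linarith
  refine g_le fun A hA hadm => ?_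
  have hpos : ∀ a ∈ A, 1 ≤ a ∧ a ≤ n := fun a ha => mem_Icc.mp (hA ha)
  have hmap : ∀ a ∈ A, r a ∈ C n ∪ D n := by
    intro a ha
    have ha0 := hpos a ha
    obtain ⟨e, h1, -⟩ := o_spec (a := a) (by omega)
    have h2 := o_le (a := a) (by omega)
    simp only [C, D, mem_union, mem_filter, mem_Icc]
    unfold r
    split_ifs with h
    · left
      omega
    · by_cases h3 : o a % 3 = 0
      · right
        have : o a % 9 = 0 := by
          by_contra h9
          exact h ⟨h3, h9⟩
        omega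
      · left
        omega
  have hdisj : Disjoint (C n) (D n) := by
    rw [Finset.disjoint_left]
    intro x hx hx'
    simp only [C, D, mem_filter] at hx hx'
    omega
  rw [Finset.card_eq_sum_card_fiberwise (f := r) (t := C n ∪ D n) hmap,
    Finset.sum_union hdisj]
  have hcount : ∀ (X : Finset ℕ) (c : ℕ) (Y : Finset ℕ), (∀ x ∈ X, c * x ≤ n → x ∈ Y) →
      ∑ x ∈ X, (if c * x ≤ n then 1 else 0) ≤ Y.card := by
    intro X c Y h
    rw [← Finset.card_filter]
    refine card_le_card fun x hx => ?_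
    rw [mem_filter] at hx
    exact h x hx.1 hx.2
  refine Nat.add_le_add ?_ ?_
  · calc ∑ s ∈ C n, (A.filter (fun a => r a = s)).card
        ≤ ∑ s ∈ C n, ((if 1 * s ≤ n then 1 else 0) + (if 2 * s ≤ n then 1 else 0) +
          (if 3 * s ≤ n then 1 else 0) + (if 8 * s ≤ n then 1 else 0)) := by
          refine Finset.sum_le_sum fun s hs => ?_
          simp only [C, mem_filter] at hs
          rw [one_mul]
          exact strip hA hadm hs.2.2
      _ ≤ _ := by
          rw [Finset.sum_add_distrib, Finset.sum_add_distrib, Finset.sum_add_distrib]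
          refine Nat.add_le_add (Nat.add_le_add (Nat.add_le_add ?_ ?_) ?_) ?_
          · exact hcount _ _ _ fun x hx _ => hx
          · refine hcount _ _ _ fun x hx h => ?_
            simp only [C, mem_filter, mem_Icc] at hx ⊢
            omega
          · refine hcount _ _ _ fun x hx h => ?_
            simp only [C, mem_filter, mem_Icc] at hx ⊢
            omega
          · refine hcount _ _ _ fun x hx h => ?_
            simp only [C, mem_filter, mem_Icc] at hx ⊢
            omega
  · calc ∑ s ∈ D n, (A.filter (fun a => r a = s)).card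
        ≤ ∑ s ∈ D n, ((if 1 * s ≤ n then 1 else 0) + (if 2 * s ≤ n then 1 else 0)) := by
          refine Finset.sum_le_sum fun s hs => ?_
          simp only [D, mem_filter] at hs
          rw [one_mul]
          refine (card_le_card ?_).trans (chain hA hadm s)
          intro a ha
          rw [mem_filter] at ha ⊢
          refine ⟨ha.1, ?_⟩
          have hr := ha.2
          unfold r at hr
          split_ifs at hr with h
          · omega
          · exact hr
      _ ≤ _ := by
          rw [Finset.sum_add_distrib]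
          refine Nat.add_le_add ?_ ?_
          · exact hcount _ _ _ fun x hx _ => hx
          · refine hcount _ _ _ fun x hx h => ?_
            simp only [D, mem_filter, mem_Icc] at hx ⊢
            omega

/-- `g(n) ≥ (43/60) n - 86` and `g(n) ≤ (53/72) n + 11/3` for every `n` -/
theorem result : ∀ n : ℕ, (43 / 60 : ℝ) * n - 86 ≤ (g n : ℝ) ∧
    (g n : ℝ) ≤ (53 / 72 : ℝ) * n + 11 / 3 := by
  intro n
  have h1 : (43 * n : ℝ) ≤ 60 * g n + 43 * 120 := by exact_mod_cast lower n
  have h2 : (72 * g n : ℝ) ≤ 53 * n + 264 := by exact_mod_cast upper n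
  constructor <;> linarith

end Pool.Agent.Results.MP_773b84_nt.BeyondTwoThirds
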